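import Pool.Agent.TH598.GV.Field2

/-!
# The sign of the Gauss–Bonnet–Chern integrand: complex sectional curvature and one hyperplane

Let `n = 2 m` be any even dimension. If at a point of a Riemannian `n`-manifold all complex
sectional curvatures are at most `-κ` (with `κ ≥ 0`) and the curvature operator is nonpositive on
the bivectors of ONE hyperplane of the tangent space, then `(-1)^m` times the Gauss–Bonnet–Chern
integrand is at least its value for the constant curvature `-κ`. Nothing else is assumed on the
`(n - 1)`-dimensional rest of the space of bivectors.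

The proof is in `Pool/Agent/TH598/GV/` and the files it imports: the integrand is written as a
Gaussian integral over the two-forms of the hyperplane, the integral is disintegrated over the
kernel of the two-form, and on every fibre the inequality is the commutation relation of the
Fock space. The quantitative form follows by induction on the dimension.
-/

set_option autoImplicit false

namespace Pool.Agent.Results.MP_5a30bb_gt.HyperplaneOperator

open Pool.Agent.W666.GB Pool.Agent.TH598.GV MeasureTheory

/-- **Hopf sign, every even dimension, under nonpositive complex sectional curvature and a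
curvature operator that is nonpositive on the bivectors of one hyperplane**: the pointwise
inequality and its integrated forms. -/
theorem result :
    (∀ (m : ℕ) (V : Type) [NormedAddCommGroup V] [InnerProductSpace ℝ V]
      (e : OrthonormalBasis (Fin m × Bool) ℝ V) (R : V → V → V → V → ℝ), AlgCurv R →
      ∀ κ : ℝ, 0 ≤ κ → CxNonpos (shiftT R κ) →
      ∀ S : Submodule ℝ V, Module.finrank ℝ S + 1 = 2 * m → OpNonposOn R S →
        roundGB m κ ≤ (-1) ^ m * gbc e R) ∧
    (∀ (m : ℕ) (M : Type) [MeasurableSpace M] (μ : Measure M) (K : CurvField m M) (κ : M → ℝ),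
      (∀ p, 0 ≤ κ p ∧ CxNonpos (shiftT (K.R p) (κ p)) ∧ ∃ S : Submodule ℝ (K.V p),
        Module.finrank ℝ S + 1 = 2 * m ∧ OpNonposOn (K.R p) S) →
      0 ≤ (-1) ^ m * ∫ p, K.gb p ∂μ ∧
      (Integrable K.gb μ → Integrable (fun p => roundGB m (κ p)) μ →
        ∫ p, roundGB m (κ p) ∂μ ≤ (-1) ^ m * ∫ p, K.gb p ∂μ)) :=
  ⟨fun _ _ _ _ e _ hR _ hκ hC S hS hO => point_strong e hR hκ hC S hS hO,
    fun _ _ _ μ K κ h => ⟨(field_strong μ K κ h).1, (field_strong μ K κ h).2.1⟩⟩

end Pool.Agent.Results.MP_5a30bb_gt.HyperplaneOperator
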