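import Pool.Agent.W666.GB.Main

/-!
# The Hopf sign in every even dimension near constant negative curvature

For every `m`, the Gauss–Bonnet–Chern integrand of a curvature tensor in dimension `n = 2 m` whose
Hilbert–Schmidt distance to a tensor of constant curvature `-κ` with the same scalar curvature is
at most `c κ n` (and the same for the Ricci tensors), `c = 10⁻⁶`, is within a factor `1 ± 1 / 5` of
the value for constant curvature `-κ`. This contains the pinching condition
`-(1 + c / √n) a ≤ K ≤ -a` for the sectional curvatures (other constant `c`).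
The development is in `Pool/Agent/W666/GB/` (starting files of this repository).
-/

set_option autoImplicit false

namespace Pool.Agent.Results.MP_5a30bb_gt.NearConstant

open Pool.Agent.W666.GB MeasureTheory

/-- **The Hopf sign near constant negative curvature, in all even dimensions `2 m`.**
(1) If the mean of the sectional curvatures of `R` is `-κ < 0` and the Hilbert–Schmidt distances of
`R` and of its Ricci tensor to those of constant curvature `-κ` are at most `10⁻⁶ κ (2 m)`, then
`(-1)^m` times the Gauss–Bonnet–Chern integrand of `R` differs from its value for constant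
curvature `-κ` by at most one fifth of that value; in particular it is positive.
(2) If all sectional curvatures lie in `[-b, -a]`, `a > 0`, and
`b - a ≤ (3 / 4) 10⁻⁶ a / √(2 m)`, then `(-1)^m` times the integrand is at least `4 / 5` of its
value for constant curvature `-a`.
(3) The integrated form of (2): for a field of curvature tensors over a finite measure space with
`-(1 + (3 / 4) 10⁻⁶ / √(2 m)) a ≤ K ≤ -a`, `a > 0` constant. -/
theorem result :
    (∀ (m : ℕ) (V : Type) [NormedAddCommGroup V] [InnerProductSpace ℝ V]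
      (e : OrthonormalBasis (Fin m × Bool) ℝ V) (R : V → V → V → V → ℝ) (κ : ℝ),
      AlgCurv R → 0 < κ → scal e R = -(κ * (2 * m * (2 * m - 1))) →
      devR e R κ ≤ (1 / 10 ^ 6 * κ * (2 * m)) ^ 2 →
      devRic e R κ ≤ (1 / 10 ^ 6 * κ * (2 * m)) ^ 2 →
        |(-1) ^ m * gbc e R - roundGB m κ| ≤ 1 / 5 * roundGB m κ ∧ 0 < (-1) ^ m * gbc e R) ∧
    (∀ (m : ℕ) (V : Type) [NormedAddCommGroup V] [InnerProductSpace ℝ V]
      (e : OrthonormalBasis (Fin m × Bool) ℝ V) (R : V → V → V → V → ℝ) (a b : ℝ),
      0 < m → AlgCurv R → 0 < a → SecIn R (-b) (-a) →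
      b - a ≤ 3 / 4 * (1 / 10 ^ 6) * a / Real.sqrt (2 * m) →
        4 / 5 * roundGB m a ≤ (-1) ^ m * gbc e R) ∧
    (∀ (m : ℕ) (M : Type) [MeasurableSpace M] (μ : Measure M) [IsFiniteMeasure μ]
      (K : CurvField m M) (a : ℝ), 0 < m → 0 < a → Integrable K.gb μ →
      (∀ p, SecIn (K.R p) (-((1 + 3 / 4 * (1 / 10 ^ 6) / Real.sqrt (2 * m)) * a)) (-a)) →
        4 / 5 * roundGB m a * μ.real Set.univ ≤ (-1) ^ m * ∫ p, K.gb p ∂μ) := by
  have h2 : ∀ (m : ℕ) (V : Type) [NormedAddCommGroup V] [InnerProductSpace ℝ V]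
      (e : OrthonormalBasis (Fin m × Bool) ℝ V) (R : V → V → V → V → ℝ) (a b : ℝ),
      0 < m → AlgCurv R → 0 < a → SecIn R (-b) (-a) →
      b - a ≤ 3 / 4 * (1 / 10 ^ 6) * a / Real.sqrt (2 * m) →
        4 / 5 * roundGB m a ≤ (-1) ^ m * gbc e R :=
    fun m V _ _ e R a b hm hR ha hs hab => sec_pinched e hm hR ha hs hab
  refine ⟨?_, h2, ?_⟩
  · intro m V _ _ e R κ hR hκ hs h4 hRic
    have h1 := gbc_close e hR hκ hs h4 hRic
    refine ⟨h1, ?_⟩
    have h3 := (abs_le.mp h1).1
    have h5 := roundGB_pos (m := m) hκ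
    linarith
  · intro m M _ μ _ K a hm ha hint h
    have hpt : ∀ p, 4 / 5 * roundGB m a ≤ (-1) ^ m * K.gb p := by
      intro p
      refine h2 m (K.V p) (K.e p) (K.R p) a _ hm (K.curv p) ha (h p) ?_
      apply le_of_eq
      ring
    have h3 : ∫ _p, 4 / 5 * roundGB m a ∂μ ≤ ∫ p, (-1) ^ m * K.gb p ∂μ :=
      integral_mono (integrable_const _) (hint.const_mul _) hpt
    rw [integral_const, integral_const_mul, smul_eq_mul] at h3
    linarith

end Pool.Agent.Results.MP_5a30bb_gt.NearConstant
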