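import Pool.Agent.TH594.HA.Fin
import Pool.Agent.TH594.HP.Field

/-!
# The sign in high dimensions under a lower operator bound and upper Ricci and scalar bounds

Let `n = 2 m`, let `G` be the value of the Gauss-Bonnet-Chern integrand for constant curvature `c > 0` and
suppose that at a point of a Riemannian `n`-manifold the curvature operator is at least `-c` and
`Ric ≤ -(1 - δ) (n - 1) c`, `0 ≤ δ ≤ 1 / 8`. Put `y = m + scal / (2 c (n - 1))` (so `y ≥ 0`, and
`scal = - n (n - 1) c (1 - 2 y / n)`). Then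

`|(-1) ^ m GB / G - exp (-y)| ≤ 3 exp (3 y) (δ + y / (m - 1)) + exp (6 y) / 2 ^ ⌊m / 2⌋`.

So the normalised integrand is asymptotic to `exp (-y)` and the sign `(-1) ^ m` holds as soon as
`scal ≤ -(n - 1) (n - A) c`, `Ric ≤ -(1 - exp (-2 A) / 12) (n - 1) c`, `n ≥ 12 (A + 2) exp (2 A)`, for every
`A ≥ 0` (without the Ricci bound the sharp range is `A = 2`, see `SharpScalarPinching`); in particular if
`Ric ≤ -(n - 1) κ`, `n (1 - κ / c) ≤ A`, `n ≥ 12 (A + 2) exp (2 A)`, or if `n ≥ 10 ^ 6`,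
`n (1 - κ / c) ≤ (log n) / 3`. There is no upper bound of the sectional curvature.

The proof (`Pool/Agent/TH594/HA/`, over `Pool/Agent/TH594/HP/`, `HE/`, `HR/`): `R + c` is a sum of squares of
two-forms `ν_a`, the integrand is the alternating sum of the traces `w_j = ∑ |ν_{a_1} ∧ … ∧ ν_{a_j}|²` and
`(2 t - 8 j ρ) w_j ≤ w_{j+1} ≤ 2 t w_j`, `w_{j+1} ≤ 2 ρ (n - 2 j) w_j`, where `t` is the trace and `ρ` the
largest eigenvalue of the Ricci form of `R + c`; so the terms follow those of the exponential series.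
-/

namespace Pool.Agent.Results.MP_5a30bb_gt.RicciHighDimension

open MeasureTheory
open Pool.Agent.TH594.HA Pool.Agent.TH594.HR
open Pool.Agent.W666.GB (AlgCurv gbc scal roundGB CurvField)
open Pool.Agent.W669.HD (addT unitT OpNonneg)

/-- The Gauss-Bonnet-Chern integrand in high dimensions under a lower bound of the curvature operator
and upper bounds of the Ricci and scalar curvature. -/
theorem result :
    -- the estimate
    (∀ (m : ℕ) (V : Type) [NormedAddCommGroup V] [InnerProductSpace ℝ V]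
      (e : OrthonormalBasis (Fin m × Bool) ℝ V) (R : V → V → V → V → ℝ) (c δ : ℝ),
      2 ≤ m → AlgCurv R → 0 < c → 0 ≤ δ → δ ≤ 1 / 8 →
      OpNonneg (addT R fun x y z w => c * unitT x y z w) →
      (∀ x : V, ric e R x ≤ -((2 * m - 1) * ((1 - δ) * c)) * ‖x‖ ^ 2) →
      0 ≤ defN e R c ∧
        |(-1) ^ m * gbc e R - Real.exp (-(defN e R c)) * roundGB m c| ≤
          err m δ (defN e R c) * roundGB m c) ∧
    -- the sign, for every `X`, in high dimensions
    (∀ (m : ℕ) (V : Type) [NormedAddCommGroup V] [InnerProductSpace ℝ V]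
      (e : OrthonormalBasis (Fin m × Bool) ℝ V) (R : V → V → V → V → ℝ) (c X : ℝ),
      AlgCurv R → 0 ≤ X → 12 * (X + 1) * Real.exp (4 * X) ≤ m → Pinched X e R c →
        1 / 4 * Real.exp (-X) * roundGB m c ≤ (-1) ^ m * gbc e R ∧
          (-1) ^ m * gbc e R ≤ 7 / 4 * roundGB m c) ∧
    -- the hypothesis in terms of a Ricci bound alone
    (∀ (m : ℕ) (V : Type) [NormedAddCommGroup V] [InnerProductSpace ℝ V]
      (e : OrthonormalBasis (Fin m × Bool) ℝ V) (R : V → V → V → V → ℝ) (c κ X : ℝ),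
      0 < c → 0 ≤ X → 12 * (X + 1) * Real.exp (4 * X) ≤ m →
      OpNonneg (addT R fun x y z w => c * unitT x y z w) →
      (∀ x : V, ric e R x ≤ -((2 * m - 1) * κ) * ‖x‖ ^ 2) → m * (1 - κ / c) ≤ X →
        Pinched X e R c) ∧
    -- the logarithmic range
    (∀ (m : ℕ) (V : Type) [NormedAddCommGroup V] [InnerProductSpace ℝ V]
      (e : OrthonormalBasis (Fin m × Bool) ℝ V) (R : V → V → V → V → ℝ) (c κ : ℝ),
      AlgCurv R → 10 ^ 6 ≤ 2 * m → 0 < c →
      OpNonneg (addT R fun x y z w => c * unitT x y z w) →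
      (∀ x : V, ric e R x ≤ -((2 * m - 1) * κ) * ‖x‖ ^ 2) →
      2 * m * (1 - κ / c) ≤ Real.log (2 * m) / 3 → 0 < (-1) ^ m * gbc e R) ∧
    -- the integral
    (∀ (m : ℕ) (M : Type) [MeasurableSpace M] (μ : Measure M) (K : CurvField m M) (c : M → ℝ)
      (X : ℝ), 0 ≤ X → 12 * (X + 1) * Real.exp (4 * X) ≤ m → Integrable K.gb μ →
      (∀ p, Pinched X (K.e p) (K.R p) (c p)) →
        (μ ≠ 0 → 0 < (-1) ^ m * ∫ p, K.gb p ∂μ) ∧
        (Integrable (fun p => roundGB m (c p)) μ →
          1 / 4 * Real.exp (-X) * ∫ p, roundGB m (c p) ∂μ ≤ (-1) ^ m * ∫ p, K.gb p ∂μ ∧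
          (-1) ^ m * ∫ p, K.gb p ∂μ ≤ 7 / 4 * ∫ p, roundGB m (c p) ∂μ)) := by
  refine ⟨?_, ?_, ?_, ?_, ?_⟩
  · intro m V _ _ e R c δ hm hR hc hδ0 hδ hop hric
    exact asym_neg e hm hR hc hδ0 hδ hop hric
  · intro m V _ _ e R c X hR hX hm h
    exact h.sign hR hX hm
  · intro m V _ _ e R c κ X hc hX hm hop hric hκ
    exact pinched_of_ric e hc hX hm hop hric hκ
  · intro m V _ _ e R c κ hR hm hc hop hric hκ
    obtain ⟨hX, hm'⟩ := log_range hm
    have h := pinched_of_ric e hc hX hm' hop hric (by linarith)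
    have h1 := (h.sign hR hX hm').1
    have h3 := (Pool.Agent.W666.GB.roundGB_pos (m := m) hc)
    have h4 : 0 < 1 / 4 * Real.exp (-(Real.log (2 * m) / 6)) * roundGB m c := by positivity
    linarith
  · intro m M _ μ K c X hX hm hi h
    have h1 : ∀ p, 1 / 4 * Real.exp (-X) * roundGB m (c p) ≤ (-1) ^ m * K.gb p ∧
        (-1) ^ m * K.gb p ≤ 7 / 4 * roundGB m (c p) := fun p => (h p).sign (K.curv p) hX hm
    have hi' : Integrable (fun p => (-1) ^ m * K.gb p) μ := hi.const_mul _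
    have hint : ∫ p, (-1) ^ m * K.gb p ∂μ = (-1) ^ m * ∫ p, K.gb p ∂μ := integral_const_mul _ _
    refine ⟨fun hμ => ?_, fun hr => ⟨?_, ?_⟩⟩
    · rw [← hint]
      have hμ' : μ Set.univ ≠ 0 := by simpa using hμ
      have h0 : ∀ p, 0 < (-1) ^ m * K.gb p := fun p => by
        have h3 := (Pool.Agent.W666.GB.roundGB_pos (m := m) (h p).1)
        have h4 : 0 < 1 / 4 * Real.exp (-X) * roundGB m (c p) := by positivity
        exact h4.trans_le (h1 p).1
      exact Pool.Agent.TH594.HP.pos_of μ _ (fun p => (h0 p).le) hi' Set.univ (fun p _ => h0 p) hμ'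
    · rw [← hint, ← integral_const_mul]
      exact integral_mono (hr.const_mul _) hi' fun p => (h1 p).1
    · rw [← hint, ← integral_const_mul]
      exact integral_mono hi' (hr.const_mul _) fun p => (h1 p).2

end Pool.Agent.Results.MP_5a30bb_gt.RicciHighDimension
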