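import Pool.Agent.TH594.HP.Field

/-!
# The Hopf sign in every even dimension under a lower bound of the curvature operator and a sharp
upper bound of the scalar curvature

Let `n = 2 m`. If at a point of a Riemannian `n`-manifold the curvature operator is at least `-c`,
`c > 0`, and the scalar curvature is at most `-c (n - 1) (n - 2)` (its value for the product of the
hyperbolic space of dimension `n - 1` and a line; for constant curvature `-c` it is `-c n (n - 1)`),
then `(-1)^m` times the Gauss–Bonnet–Chern integrand is nonnegative; no upper bound of the sectional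
curvatures is assumed, and no smallness. The scalar curvature bound is sharp in every dimension.

Proof (`Pool/Agent/TH594/HP/`): write `-R = c R₀ - E`, `E = ∑ ν_a ⊗ ν_a` (curvature operator `≥ 0`,
trace at most `c (n - 1)`). The integrand is `∑_j (-1)^j T_j`, `T_j` being a positive constant times
`w_j = ∑ ‖ν_{a_1} ∧ ⋯ ∧ ν_{a_j}‖²`. By the Bianchi identity
`∑_a ‖ν_a ∧ f‖² ≤ 2 (tr E) ‖f‖² - Ric_E (f, f) ≤ 2 (tr E) ‖f‖²` for every form `f` (in suitable
normalisations); this gives `T_{j+1} ≤ T_j` for `j ≥ 2`, `m ≥ 4`, up to the last step, and the sum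
is at least `T_0 - T_1`. In dimension six a separate argument in a basis of eigenvectors of the
Ricci form gives `T_3 ≤ T_2`.
-/

set_option autoImplicit false

namespace Pool.Agent.Results.MP_5a30bb_gt.SharpScalarPinching

open Pool.Agent.W666.GB Pool.Agent.W669.HD MeasureTheory

/-- **The Hopf sign in dimension `n = 2 m` for curvature operator `≥ -c` and scalar curvature
`≤ -c (n - 1) (n - 2)`.** -/
theorem result :
    -- (1) the pointwise inequality
    (∀ (m : ℕ) (V : Type) [NormedAddCommGroup V] [InnerProductSpace ℝ V]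
      (e : OrthonormalBasis (Fin m × Bool) ℝ V) (R : V → V → V → V → ℝ) (c : ℝ),
      AlgCurv R → 0 < c → OpNonneg (addT R fun x y z w => c * unitT x y z w) →
      scal e R ≤ -(c * ((2 * m - 1) * (2 * m - 2))) →
        roundGB m c * (-(scal e R) - c * ((2 * m - 1) * (2 * m - 2))) ≤
          2 * c * (2 * m - 1) * ((-1) ^ m * gbc e R)) ∧
    -- (2) equality holds for a family crossing the threshold (at `t = 1`)
    (∀ (m : ℕ) (V : Type) [NormedAddCommGroup V] [InnerProductSpace ℝ V]
      (e : OrthonormalBasis (Fin m × Bool) ℝ V) (c t : ℝ), 1 ≤ m → 0 < c → 0 ≤ t →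
      ∃ R : V → V → V → V → ℝ, AlgCurv R ∧
        OpNonneg (addT R fun x y z w => c * unitT x y z w) ∧
        scal e R = -(c * ((2 * m - 1) * (2 * m - 2))) + (t - 1) * (2 * c * (2 * m - 1)) ∧
        (-1) ^ m * gbc e R = (1 - t) * roundGB m c) ∧
    -- (3) the integrated form, with the strict inequality
    (∀ (m : ℕ) (M : Type) [MeasurableSpace M] (μ : Measure M) (K : CurvField m M) (c : M → ℝ),
      (∀ p, 0 ≤ c p ∧ OpNonneg (addT (K.R p) fun x y z w => c p * unitT x y z w) ∧
        scal (K.e p) (K.R p) ≤ -(c p * ((2 * m - 1) * (2 * m - 2)))) →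
      0 ≤ (-1) ^ m * ∫ p, K.gb p ∂μ ∧
        (Integrable K.gb μ → μ {p | 0 < c p ∧ scal (K.e p) (K.R p) <
          -(c p * ((2 * m - 1) * (2 * m - 2)))} ≠ 0 → 0 < (-1) ^ m * ∫ p, K.gb p ∂μ)) :=
  ⟨fun _ _ _ _ e _ _ hR hc h hs => Pool.Agent.TH594.HP.point e hR hc h hs,
    fun _ _ _ _ e _ _ hm hc ht => Pool.Agent.TH594.HP.eq_family e hm hc ht,
    fun _ _ _ μ K c h => Pool.Agent.TH594.HP.field_sign μ K c h⟩

end Pool.Agent.Results.MP_5a30bb_gt.SharpScalarPinching
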